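import Pool.Agent.TH198.AT.Conv

/-! Piece AT-LESS: outside the de Almeida–Thouless region a two-step measure does better
(helper543). -/

set_option autoImplicit false

open MeasureTheory ProbabilityTheory Set Filter Topology

namespace Pool.TH543.AT

open Pool.TH198.AT

lemma sech_pos (x : ℝ) : 0 < sech x := inv_pos.2 (Real.cosh_pos x)

lemma sech_le_one (x : ℝ) : sech x ≤ 1 := by
  unfold sech
  exact inv_le_one_of_one_le₀ (Real.one_le_cosh x)

lemma continuous_sech : Continuous sech := by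
  unfold sech
  exact Real.continuous_cosh.inv₀ fun x => (Real.cosh_pos x).ne'

/-- the joint function -/
noncomputable def JJ (s h : ℝ) (p : ℝ × ℝ) : ℝ :=
  sech (h + √s * p.1) * E1 (fun y => sech (h + √s * p.1 + √p.2 * y))

lemma JJ_meas (s h : ℝ) : StronglyMeasurable (JJ s h) := by
  have hc : Continuous fun r : (ℝ × ℝ) × ℝ => sech (h + √s * r.1.1 + √r.1.2 * r.2) := by
    refine continuous_sech.comp ?_
    exact ((continuous_const.add (continuous_const.mul (continuous_fst.comp continuous_fst))).add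
      ((Real.continuous_sqrt.comp (continuous_snd.comp continuous_fst)).mul continuous_snd))
  have h1 : StronglyMeasurable fun p : ℝ × ℝ =>
      ∫ y, sech (h + √s * p.1 + √p.2 * y) ∂(gaussianReal 0 1) :=
    StronglyMeasurable.integral_prod_right (ν := gaussianReal 0 1)
      (f := fun (p : ℝ × ℝ) (y : ℝ) => sech (h + √s * p.1 + √p.2 * y)) hc.stronglyMeasurable
  have h2 : Continuous fun p : ℝ × ℝ => sech (h + √s * p.1) :=
    continuous_sech.comp (continuous_const.add (continuous_const.mul continuous_fst))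
  exact h2.stronglyMeasurable.mul h1

lemma sech_int (a b : ℝ) : Integrable (fun y => sech (a + b * y)) (gaussianReal 0 1) := by
  refine Integrable.of_bound (C := 1) ?_ (Eventually.of_forall fun y => ?_)
  · exact (continuous_sech.comp
      (continuous_const.add (continuous_const.mul continuous_id))).aestronglyMeasurable
  · rw [Real.norm_eq_abs, abs_of_pos (sech_pos _)]
    exact sech_le_one _

lemma E1_sech_mem (a b : ℝ) : 0 ≤ E1 (fun y => sech (a + b * y)) ∧
    E1 (fun y => sech (a + b * y)) ≤ 1 := by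
  unfold E1
  refine ⟨integral_nonneg fun y => (sech_pos _).le, ?_⟩
  calc ∫ y, sech (a + b * y) ∂(gaussianReal 0 1) ≤ ∫ _, (1 : ℝ) ∂(gaussianReal 0 1) :=
        integral_mono (sech_int a b) (integrable_const _) fun y => sech_le_one _
    _ = 1 := by simp

lemma JJ_mem (s h : ℝ) (p : ℝ × ℝ) : 0 ≤ JJ s h p ∧ JJ s h p ≤ 1 := by
  obtain ⟨h1, h2⟩ := E1_sech_mem (h + √s * p.1) (√p.2)
  refine ⟨mul_nonneg (sech_pos _).le h1, ?_⟩
  calc JJ s h p ≤ 1 * 1 := mul_le_mul (sech_le_one _) h2 h1 zero_le_one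
    _ = 1 := one_mul 1

lemma KK_eq (s h w z : ℝ) : KK w (h + √s * z) = 1 - Real.exp (-w / 2) * JJ s h (z, w) := by
  unfold KK JJ
  ring

/-- the average of `KK` -/
lemma E1_KK (s h w : ℝ) :
    ∫ z, KK w (h + √s * z) ∂(gaussianReal 0 1) = 1 - V 1 s h w := by
  have hJ : Integrable (fun z => JJ s h (z, w)) (gaussianReal 0 1) := by
    refine Integrable.of_bound (C := 1)
      ((JJ_meas s h).comp_measurable (measurable_id.prodMk measurable_const)).aestronglyMeasurable
      (Eventually.of_forall fun z => ?_)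
    rw [Real.norm_eq_abs, abs_of_nonneg (JJ_mem s h _).1]
    exact (JJ_mem s h _).2
  have h1 : (fun z => KK w (h + √s * z)) =
      fun z => 1 - Real.exp (-w / 2) * JJ s h (z, w) := funext fun z => KK_eq s h w z
  rw [h1, integral_sub (integrable_const _) (hJ.const_mul _), integral_const_mul]
  unfold V JJ E1
  simp

/-- Fubini -/
lemma fub (s h v : ℝ) (hv : 0 ≤ v) :
    IntervalIntegrable (fun w => V 1 s h w) volume 0 v ∧
      ∫ z, (∫ w in (0 : ℝ)..v, KK w (h + √s * z)) ∂(gaussianReal 0 1) =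
        ∫ w in (0 : ℝ)..v, (1 - V 1 s h w) := by
  have hm : StronglyMeasurable (Function.uncurry fun z w => KK w (h + √s * z)) := by
    have h1 : (Function.uncurry fun z w => KK w (h + √s * z)) =
        fun p : ℝ × ℝ => 1 - Real.exp (-p.2 / 2) * JJ s h p := by
      funext p
      exact KK_eq s h p.2 p.1
    rw [h1]
    refine stronglyMeasurable_const.sub (StronglyMeasurable.mul ?_ (JJ_meas s h))
    exact (Real.continuous_exp.comp (continuous_snd.neg.div_const _)).stronglyMeasurable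
  have hi : Integrable (Function.uncurry fun z w => KK w (h + √s * z))
      ((gaussianReal 0 1).prod (volume.restrict (Ioc 0 v))) := by
    refine Integrable.of_bound (C := 1) hm.aestronglyMeasurable ?_
    have h2 : ∀ᵐ p : ℝ × ℝ ∂((gaussianReal 0 1).prod (volume.restrict (Ioc 0 v))), 0 < p.2 := by
      have h3 : ∀ᵐ w ∂(volume.restrict (Ioc (0 : ℝ) v)), 0 < w := by
        filter_upwards [ae_restrict_mem measurableSet_Ioc] with w hw using hw.1
      exact Measure.quasiMeasurePreserving_snd.ae h3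
    filter_upwards [h2] with p hp
    show ‖KK p.2 (h + √s * p.1)‖ ≤ 1
    rw [KK_eq, Real.norm_eq_abs, abs_le]
    have h4 := JJ_mem s h (p.1, p.2)
    have h5 : Real.exp (-p.2 / 2) ≤ 1 := Real.exp_le_one_iff.2 (by linarith)
    have h6 := Real.exp_pos (-p.2 / 2)
    have h7 : Real.exp (-p.2 / 2) * JJ s h (p.1, p.2) ≤ 1 * 1 :=
      mul_le_mul h5 h4.2 h4.1 zero_le_one
    have h8 : 0 ≤ Real.exp (-p.2 / 2) * JJ s h (p.1, p.2) := mul_nonneg h6.le h4.1
    constructor <;> linarith
  have hV : Integrable (fun w => 1 - V 1 s h w) (volume.restrict (Ioc 0 v)) := by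
    refine hi.integral_prod_right.congr (Eventually.of_forall fun w => ?_)
    exact E1_KK s h w
  refine ⟨?_, ?_⟩
  · rw [intervalIntegrable_iff_integrableOn_Ioc_of_le hv]
    have h1 : Integrable (fun w => (1 : ℝ) - (1 - V 1 s h w)) (volume.restrict (Ioc 0 v)) :=
      (integrable_const _).sub hV
    refine h1.congr (Eventually.of_forall fun w => ?_)
    show (1 : ℝ) - (1 - V 1 s h w) = V 1 s h w
    ring
  · simp only [intervalIntegral.integral_of_le hv]
    rw [integral_integral_swap hi]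
    exact integral_congr_ae (Eventually.of_forall fun w => E1_KK s h w)

theorem t_LESS (hVAL : St_VAL) (hOVER : St_OVER) (hLAM : St_LAM) (hJEN : St_JEN)
    (hLIM : St_LIM) : St_LESS := by
  intro β h q hβ hq0 hq1 hq hlam
  obtain ⟨δ, hδ, hov⟩ := hOVER β h q hβ hq0 hq hlam
  set s : ℝ := 2 * β ^ 2 * q with hs
  have hs0 : 0 ≤ s := by positivity
  have hβ2 : 0 < β ^ 2 := by positivity
  obtain ⟨t, hqt, ht1, htδ⟩ : ∃ t : ℝ, q < t ∧ t ≤ 1 ∧ 2 * β ^ 2 * (t - q) < δ := by
    refine ⟨q + min (1 - q) (δ / (4 * β ^ 2)), ?_, ?_, ?_⟩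
    · have : 0 < min (1 - q) (δ / (4 * β ^ 2)) := lt_min (by linarith) (by positivity)
      linarith
    · have := min_le_left (1 - q) (δ / (4 * β ^ 2))
      linarith
    · have h1 := min_le_right (1 - q) (δ / (4 * β ^ 2))
      have h2 : 2 * β ^ 2 * (q + min (1 - q) (δ / (4 * β ^ 2)) - q) ≤
          2 * β ^ 2 * (δ / (4 * β ^ 2)) :=
        mul_le_mul_of_nonneg_left (by linarith) (by positivity)
      have h3 : 2 * β ^ 2 * (δ / (4 * β ^ 2)) = δ / 2 := by
        field_simp
        ring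
      linarith
  set v : ℝ := 2 * β ^ 2 * (t - q) with hv
  have hv0 : 0 < v := by
    have : 0 < t - q := by linarith
    positivity
  obtain ⟨hint, hlim⟩ := hLIM s h v hs0 hv0.le
  obtain ⟨hVi, hfub⟩ := fub s h v hv0.le
  obtain ⟨hL1, hU1⟩ := hint 1 one_pos le_rfl
  set A : ℝ := E1 (fun z => UH 1 v (h + √s * z)) with hA
  set B : ℝ → ℝ := fun m => E1 (fun z => LP m v (h + √s * z)) with hB
  -- the value at `m = 1`
  have hAB : B 1 - A = (∫ w in (0 : ℝ)..v, (1 - V 1 s h w)) / 2 := by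
    rw [← hfub, hA, hB]
    unfold E1
    rw [← integral_sub hL1 hU1, ← integral_div]
    refine integral_congr_ae (Eventually.of_forall fun z => ?_)
    obtain ⟨h1, h2⟩ := hLAM v (h + √s * z) hv0.le
    show LP 1 v (h + √s * z) - UH 1 v (h + √s * z) = _
    rw [h2]
    exact h1
  have hgt : β ^ 2 * (t ^ 2 - q ^ 2) < ∫ w in (0 : ℝ)..v, (1 - V 1 s h w) := by
    have h1 : ∫ w in (0 : ℝ)..v, (q + w / (2 * β ^ 2)) = β ^ 2 * (t ^ 2 - q ^ 2) := by
      rw [intervalIntegral.integral_add (by simp) (by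
        exact (continuous_id.div_const _).intervalIntegrable _ _)]
      rw [intervalIntegral.integral_div, integral_id, intervalIntegral.integral_const, hv]
      field_simp
      simp only [smul_eq_mul]
      ring
    rw [← h1]
    refine intervalIntegral.integral_lt_integral_of_ae_le_of_measure_setOfPred_lt_ne_zero hv0.le
      ?_ ?_ ?_ ?_
    · exact (continuous_const.add (continuous_id.div_const _)).intervalIntegrable _ _
    · exact (intervalIntegrable_const).sub hVi
    · filter_upwards [ae_restrict_mem measurableSet_Ioc] with w hw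
      exact (hov w hw.1 (lt_of_le_of_lt hw.2 htδ)).le
    · have h2 : Ioc (0 : ℝ) v ⊆ {w | q + w / (2 * β ^ 2) < 1 - V 1 s h w} := fun w hw =>
        hov w hw.1 (lt_of_le_of_lt hw.2 htδ)
      have h3 : (volume.restrict (Ioc (0 : ℝ) v)) (Ioc 0 v) ≤
          (volume.restrict (Ioc (0 : ℝ) v)) {w | q + w / (2 * β ^ 2) < 1 - V 1 s h w} :=
        measure_mono h2
      intro h4
      rw [h4] at h3
      simp only [Measure.restrict_apply_self, Real.volume_Ioc, sub_zero, nonpos_iff_eq_zero,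
        ENNReal.ofReal_eq_zero] at h3
      linarith
  -- the limit of the bracket
  have hbr : Tendsto (fun m : ℝ => (A - B m) / m + β ^ 2 / 2 * (t ^ 2 - q ^ 2)) (𝓝[<] 1)
      (𝓝 ((A - B 1) / 1 + β ^ 2 / 2 * (t ^ 2 - q ^ 2))) := by
    refine Tendsto.add_const _ (Tendsto.div (tendsto_const_nhds.sub hlim) ?_ one_ne_zero)
    exact tendsto_id.mono_left nhdsWithin_le_nhds
  have hneg : (A - B 1) / 1 + β ^ 2 / 2 * (t ^ 2 - q ^ 2) < 0 := by
    have : A - B 1 = -((∫ w in (0 : ℝ)..v, (1 - V 1 s h w)) / 2) := by rw [← hAB]; ring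
    rw [this]
    linarith
  obtain ⟨m, hm, hm0, hm1⟩ : ∃ m : ℝ, (A - B m) / m + β ^ 2 / 2 * (t ^ 2 - q ^ 2) < 0 ∧
      0 < m ∧ m < 1 := by
    have h1 : ∀ᶠ m in 𝓝[<] (1 : ℝ), (A - B m) / m + β ^ 2 / 2 * (t ^ 2 - q ^ 2) < 0 :=
      hbr.eventually (gt_mem_nhds hneg)
    have h2 : ∀ᶠ m in 𝓝[<] (1 : ℝ), 0 < m :=
      (tendsto_id.mono_left nhdsWithin_le_nhds).eventually (lt_mem_nhds one_pos)
    have h3 : ∀ᶠ m in 𝓝[<] (1 : ℝ), m < 1 := self_mem_nhdsWithin
    obtain ⟨m, h4⟩ := (h1.and (h2.and h3)).exists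
    exact ⟨m, h4.1, h4.2.1, h4.2.2⟩
  refine ⟨m, t, hm0, hm1.le, hqt, ht1, ?_⟩
  obtain ⟨hone, htwo⟩ := hVAL
  rw [hone β h q hβ hq0 hq1.le, htwo β h q m t hβ hq0 hqt ht1 hm0 hm1.le, ← hs, ← hv]
  obtain ⟨hLm, hUm⟩ := hint m hm0 hm1.le
  -- `E log cosh X = A - v/2`
  have hlc : E1 (fun z => Real.log (Real.cosh (h + √s * z))) = A - v / 2 := by
    rw [hA]
    unfold E1
    have h1 : (fun z => Real.log (Real.cosh (h + √s * z))) =
        fun z => UH 1 v (h + √s * z) - v / 2 := by
      funext z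
      rw [(hLAM v (h + √s * z) hv0.le).2]
      ring
    rw [h1, integral_sub hU1 (integrable_const _)]
    simp
  have hjen : m * E1 (fun z => UH m v (h + √s * z)) + (1 - m) * B m ≤ A := by
    rw [hA, hB]
    unfold E1
    show m * _ + (1 - m) * ∫ z, LP m v (h + √s * z) ∂(gaussianReal 0 1) ≤ _
    rw [← integral_const_mul, ← integral_const_mul, ← integral_add (hUm.const_mul m)
      (hLm.const_mul (1 - m))]
    exact integral_mono ((hUm.const_mul m).add (hLm.const_mul (1 - m))) hU1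
      fun z => hJEN m v (h + √s * z) hm0 hm1.le hv0.le
  set U : ℝ := E1 (fun z => UH m v (h + √s * z)) with hU
  rw [hlc]
  have hkey : U - A + β ^ 2 / 2 * (1 - m) * (t ^ 2 - q ^ 2) < 0 := by
    have h1 : U - A ≤ (1 - m) * ((A - B m) / m) := by
      rw [← mul_div_assoc, le_div_iff₀ hm0]
      nlinarith
    have h2 : (1 - m) * ((A - B m) / m + β ^ 2 / 2 * (t ^ 2 - q ^ 2)) < 0 :=
      mul_neg_of_pos_of_neg (by linarith) hm
    nlinarith
  have hvt : v / 2 = β ^ 2 * (t - q) := by rw [hv]; ring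
  rw [hvt]
  nlinarith

end Pool.TH543.AT
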