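import Pool.Agent.TH198.AT.Conv

/-! Piece AT-OVER: outside the de Almeida–Thouless region the overlap function exceeds the identity
right of `q` (helper543). -/

set_option autoImplicit false

open MeasureTheory ProbabilityTheory Set Filter Topology

namespace Pool.TH543.ATO

open Pool.TH198.AT

lemma sech_pos (x : ℝ) : 0 < sech x := inv_pos.2 (Real.cosh_pos x)

lemma sech_le_one (x : ℝ) : sech x ≤ 1 := by
  unfold sech
  exact inv_le_one_of_one_le₀ (Real.one_le_cosh x)

lemma continuous_sech : Continuous sech := by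
  unfold sech
  exact Real.continuous_cosh.inv₀ fun x => (Real.cosh_pos x).ne'

lemma sech_tanh (x : ℝ) : sech x ^ 2 + Real.tanh x ^ 2 = 1 := by
  unfold sech
  rw [Real.tanh_eq_sinh_div_cosh]
  have h1 := Real.cosh_sq x
  have h2 := (Real.cosh_pos x).ne'
  field_simp
  linarith

lemma E1_const (c : ℝ) : E1 (fun _ => c) = c := by
  unfold E1
  rw [integral_const]
  simp

lemma V_zero (k : ℕ) (s h : ℝ) : V k s h 0 = E1 (fun z => sech (h + √s * z) ^ (k + 1)) := by
  unfold V
  simp only [Real.sqrt_zero, zero_mul, add_zero, E1_const, neg_zero, zero_div, Real.exp_zero,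
    one_mul]
  congr 1
  funext z
  ring

lemma E1_sech2 (s h : ℝ) : E1 (fun z => sech (h + √s * z) ^ 2) =
    1 - E1 (fun z => Real.tanh (h + √s * z) ^ 2) := by
  have hc : Continuous fun z : ℝ => sech (h + √s * z) ^ 2 :=
    (continuous_sech.comp (continuous_const.add (continuous_const.mul continuous_id))).pow 2
  have hi : Integrable (fun z : ℝ => sech (h + √s * z) ^ 2) (gaussianReal 0 1) := by
    refine Integrable.of_bound (C := 1) hc.aestronglyMeasurable (Eventually.of_forall fun z => ?_)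
    rw [Real.norm_eq_abs, abs_of_nonneg (sq_nonneg _)]
    exact pow_le_one₀ (sech_pos _).le (sech_le_one _)
  have h1 : (fun z => Real.tanh (h + √s * z) ^ 2) = fun z => 1 - sech (h + √s * z) ^ 2 := by
    funext z
    linarith [sech_tanh (h + √s * z)]
  unfold E1
  rw [h1, integral_sub (integrable_const _) hi]
  simp

theorem t_OVER (hVD : St_VD) : St_OVER := by
  intro β h q hβ hq0 hq hlam
  set s : ℝ := 2 * β ^ 2 * q with hs
  have hβ2 : 0 < 2 * β ^ 2 := by positivity
  have hs0 : 0 ≤ s := by positivity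
  obtain ⟨hd, -, hc1, hc3⟩ := hVD s h hs0
  have h30 : 1 / (2 * β ^ 2) < V 3 s h 0 := by
    rw [V_zero, div_lt_iff₀ hβ2]
    have : E1 (fun z => sech (h + √s * z) ^ (3 + 1)) * (2 * β ^ 2) =
        2 * β ^ 2 * E1 (fun z => sech (h + √s * z) ^ 4) := mul_comm _ _
    rw [this]
    exact hlam
  have h10 : V 1 s h 0 = 1 - q := by
    rw [V_zero, show (1 + 1 : ℕ) = 2 from rfl, E1_sech2, ← hq]
  -- a neighbourhood
  have hev : ∀ᶠ v in 𝓝[Ici 0] (0 : ℝ), 1 / (2 * β ^ 2) < V 3 s h v :=
    (hc3 0 (mem_Ici.2 le_rfl)).eventually (lt_mem_nhds h30)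
  obtain ⟨δ, hδ, hball⟩ := Metric.mem_nhdsWithin_iff.1 hev
  refine ⟨δ, hδ, fun v hv hvδ => ?_⟩
  have hpos : ∀ w, 0 < w → w < δ → 1 / (2 * β ^ 2) < V 3 s h w := by
    intro w hw hwδ
    refine hball ⟨?_, hw.le⟩
    rw [Metric.mem_ball, Real.dist_eq, sub_zero, abs_of_pos hw]
    exact hwδ
  have hmono : StrictMonoOn (fun v => 1 - V 1 s h v - q - v / (2 * β ^ 2)) (Icc 0 v) := by
    refine strictMonoOn_of_deriv_pos (convex_Icc 0 v) ?_ ?_
    · exact ((continuousOn_const.sub (hc1.mono Icc_subset_Ici_self)).sub continuousOn_const).sub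
        (continuousOn_id.div_const _)
    · intro w hw
      rw [interior_Icc] at hw
      have h1 : HasDerivAt (fun v => 1 - V 1 s h v - q - v / (2 * β ^ 2))
          (-(-V 3 s h w) - 1 / (2 * β ^ 2)) w :=
        (((hd w hw.1).const_sub 1).sub_const q).sub ((hasDerivAt_id w).div_const _)
      rw [h1.deriv]
      have := hpos w hw.1 (hw.2.trans hvδ)
      linarith
  have h2 := hmono (left_mem_Icc.2 hv.le) (right_mem_Icc.2 hv.le) hv
  simp only [h10, zero_div] at h2
  linarith

end Pool.TH543.ATO
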