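import Pool.Agent.TH198.AT.Conv
import Pool.Agent.TH509.AT.F0

/-! Piece AT-PAR2: the explicit two-step solution of the Parisi equation (helper543). -/

set_option autoImplicit false

open MeasureTheory ProbabilityTheory Set Filter Topology

namespace Pool.TH543.AT2

open Pool.TH198.AT Pool.TH509.AT

/-! ### the two-step distribution function -/

lemma two_lo {q m t s : ℝ} (h : s < q) : two q m t s = 0 := by unfold two; rw [if_pos h]

lemma two_mid {q m t s : ℝ} (h1 : q ≤ s) (h2 : s < t) : two q m t s = m := by
  unfold two; rw [if_neg (not_lt.2 h1), if_pos h2]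

lemma two_hi {q m t s : ℝ} (hqt : q < t) (h : t ≤ s) : two q m t s = 1 := by
  unfold two; rw [if_neg (not_lt.2 (hqt.le.trans h)), if_neg (not_lt.2 h)]

lemma two_mono {q m t : ℝ} (hqt : q < t) (hm0 : 0 ≤ m) (hm1 : m ≤ 1) : Monotone (two q m t) := by
  intro a b hab
  rcases lt_or_ge b q with hb | hb
  · rw [two_lo hb, two_lo (lt_of_le_of_lt hab hb)]
  rcases lt_or_ge b t with hb2 | hb2
  · rw [two_mid hb hb2]
    rcases lt_or_ge a q with ha | ha
    · rw [two_lo ha]; exact hm0
    · rw [two_mid ha (lt_of_le_of_lt hab hb2)]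
  · rw [two_hi hqt hb2]
    rcases lt_or_ge a q with ha | ha
    · rw [two_lo ha]; exact zero_le_one
    rcases lt_or_ge a t with ha2 | ha2
    · rw [two_mid ha ha2]; exact hm1
    · rw [two_hi hqt ha2]

lemma two_mem {q m t : ℝ} (hm0 : 0 ≤ m) (hm1 : m ≤ 1) (s : ℝ) :
    0 ≤ two q m t s ∧ two q m t s ≤ 1 := by
  unfold two
  split_ifs <;> constructor <;> linarith

lemma two_cdf {q m t : ℝ} (hqt : q < t) (ht : t ≤ 1) (hm0 : 0 ≤ m) (hm1 : m ≤ 1) :
    IsCdf (two q m t) := by
  refine ⟨(two_mono hqt hm0 hm1).monotoneOn _, fun s _ => two_mem hm0 hm1 s, two_hi hqt ht,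
    fun s hs => ?_⟩
  rcases lt_or_ge s q with h | h
  · refine ContinuousWithinAt.congr_of_eventuallyEq (f := fun _ => (0 : ℝ))
      continuousWithinAt_const ?_ (two_lo h)
    filter_upwards [mem_nhdsWithin_of_mem_nhds (Iio_mem_nhds h)] with r hr using two_lo hr
  rcases lt_or_ge s t with h2 | h2
  · refine ContinuousWithinAt.congr_of_eventuallyEq (f := fun _ => m)
      continuousWithinAt_const ?_ (two_mid h h2)
    filter_upwards [mem_nhdsWithin_of_mem_nhds (Iio_mem_nhds h2), self_mem_nhdsWithin] with r hr hr2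
      using two_mid (h.trans hr2) hr
  · refine ContinuousWithinAt.congr_of_eventuallyEq (f := fun _ => (1 : ℝ))
      continuousWithinAt_const ?_ (two_hi hqt h2)
    filter_upwards [self_mem_nhdsWithin] with r hr2 using two_hi hqt (h2.trans hr2)

/-! ### the time of the Cole–Hopf part -/

/-- time of the Cole–Hopf part -/
noncomputable def aa (β q t s : ℝ) : ℝ := 2 * β ^ 2 * (t - max q (min s t))

lemma aa_nonneg (β : ℝ) {q t : ℝ} (hqt : q < t) (s : ℝ) : 0 ≤ aa β q t s := by
  unfold aa
  have h : max q (min s t) ≤ t := max_le hqt.le (min_le_right _ _)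
  have : 0 ≤ t - max q (min s t) := by linarith
  positivity

lemma aa_le (β q t s : ℝ) : aa β q t s ≤ 2 * β ^ 2 * (t - q) := by
  unfold aa
  have h : q ≤ max q (min s t) := le_max_left _ _
  exact mul_le_mul_of_nonneg_left (by linarith) (by positivity)

lemma aa_cont (β q t : ℝ) : Continuous (aa β q t) := by
  unfold aa
  exact continuous_const.mul (continuous_const.sub
    (continuous_const.max (continuous_id.min continuous_const)))

lemma aa_hi {β q t s : ℝ} (hqt : q < t) (h : t ≤ s) : aa β q t s = 0 := by
  unfold aa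
  rw [min_eq_right h, max_eq_right hqt.le, sub_self, mul_zero]

lemma aa_mid {β q t s : ℝ} (h1 : q ≤ s) (h2 : s ≤ t) : aa β q t s = 2 * β ^ 2 * (t - s) := by
  unfold aa
  rw [min_eq_left h2, max_eq_right h1]

lemma aa_lo {β q t s : ℝ} (h1 : s ≤ q) : aa β q t s = 2 * β ^ 2 * (t - q) := by
  unfold aa
  rw [max_eq_left ((min_le_left _ _).trans h1)]

lemma slice {F : ℝ → ℝ → ℝ} (hF : ContinuousOn (fun p : ℝ × ℝ => F p.1 p.2) (Ici 0 ×ˢ univ))
    {w : ℝ} (hw : 0 ≤ w) : Continuous (F w) :=
  hF.comp_continuous (f := fun x : ℝ => ((w, x) : ℝ × ℝ)) (by fun_prop)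
    fun x => ⟨hw, mem_univ _⟩

lemma jc {F : ℝ → ℝ → ℝ} {C : ℝ}
    (hF : ContinuousOn (fun p : ℝ × ℝ => F p.1 p.2) (Ici 0 ×ˢ univ))
    (hC : ∀ w x, 0 ≤ w → |F w x| ≤ C) (β : ℝ) {q t : ℝ} (hqt : q < t) :
    Continuous (fun p : ℝ × ℝ => he (F (aa β q t p.1)) β q p.1 p.2) := by
  unfold he E1
  refine continuous_of_dominated (bound := fun _ => C) ?_ ?_ (integrable_const _) ?_
  · intro p
    have hsl : Continuous (F (aa β q t p.1)) := slice hF (aa_nonneg β hqt _)
    have : Continuous fun y : ℝ => F (aa β q t p.1) (p.2 + √(2 * β ^ 2 * (q - p.1)) * y) :=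
      hsl.comp (continuous_const.add (continuous_const.mul continuous_id))
    exact this.aestronglyMeasurable
  · intro p
    exact Eventually.of_forall fun y => by
      rw [Real.norm_eq_abs]; exact hC _ _ (aa_nonneg β hqt _)
  · refine Eventually.of_forall fun y => ?_
    refine hF.comp_continuous
      (f := fun p : ℝ × ℝ => ((aa β q t p.1, p.2 + √(2 * β ^ 2 * (q - p.1)) * y) : ℝ × ℝ))
      ?_ (fun p => ⟨aa_nonneg β hqt _, mem_univ _⟩)
    exact ((aa_cont β q t).comp continuous_fst).prodMk
      (continuous_snd.add ((Real.continuous_sqrt.comp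
        (continuous_const.mul (continuous_const.sub continuous_fst))).mul continuous_const))

theorem t_PAR2 (hCH : St_CH) (hH : St_HEAT) (hX : St_HEATX) : St_PAR2 := by
  intro β q m t hβ hq0 hqt ht1 hm0 hm1
  refine ⟨two_cdf hqt ht1 hm0.le hm1, ?_⟩
  obtain ⟨Ux, Uxx, hd, hw, hcU, hcx, hcxx, hb, h0⟩ := hCH m hm0 hm1
  have hA0 : ∀ s, 0 ≤ aa β q t s := aa_nonneg β hqt
  have hv0 : 0 ≤ 2 * β ^ 2 * (t - q) := by
    have : 0 < t - q := by linarith
    positivity
  -- uniform formula
  have hval : ∀ s x, f2 β q m t s x = he (UH m (aa β q t s)) β q s x + β ^ 2 * (1 - max s t) := by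
    intro s x
    unfold f2
    by_cases h1 : t ≤ s
    · rw [if_pos h1, he_of_le _ (hqt.le.trans h1), aa_hi hqt h1, (h0 x).1, max_eq_left h1]
    · rw [if_neg h1]
      push Not at h1
      by_cases h2 : q ≤ s
      · rw [if_pos h2, he_of_le _ h2, aa_mid h2 h1.le, max_eq_right h1.le]
      · rw [if_neg h2]
        push Not at h2
        rw [aa_lo h2.le, max_eq_right h1.le]
        rfl
  refine ⟨fun s x => he (Ux (aa β q t s)) β q s x, fun s x => he (Uxx (aa β q t s)) β q s x,
    ?_, ?_, ?_, ?_, ?_⟩
  · intro s _ x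
    constructor
    · have h1 := hX (UH m (aa β q t s)) (Ux (aa β q t s)) 1 (fun x => (hd _ x (hA0 s)).1)
        (slice hcx (hA0 s)) (fun x => (hb _ x (hA0 s)).1) (√(2 * β ^ 2 * (q - s))) x
      have e : f2 β q m t s = fun x => he (UH m (aa β q t s)) β q s x + β ^ 2 * (1 - max s t) :=
        funext fun x => hval s x
      rw [e]
      exact h1.add_const _
    · exact hX (Ux (aa β q t s)) (Uxx (aa β q t s)) 3 (fun x => (hd _ x (hA0 s)).2)
        (slice hcxx (hA0 s)) (fun x => (hb _ x (hA0 s)).2) (√(2 * β ^ 2 * (q - s))) x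
  · exact (jc hcx (fun w x hw => (hb w x hw).1) β hqt).continuousOn
  · exact (jc hcxx (fun w x hw => (hb w x hw).2) β hqt).continuousOn
  · refine ⟨3, fun s _ x => ⟨E1_abs_le fun y => ?_, E1_abs_le fun y => (hb _ _ (hA0 s)).2⟩⟩
    exact (hb _ _ (hA0 s)).1.trans (by norm_num)
  · intro s hs x
    -- continuity of `r ↦ f2 r x`
    have hcont : ContinuousOn (fun r => f2 β q m t r x) (Icc 0 1) := by
      have e : (fun r => f2 β q m t r x) =
          fun r => he (UH m (aa β q t r)) β q r x + β ^ 2 * (1 - max r t) :=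
        funext fun r => hval r x
      rw [e]
      refine ContinuousOn.add ?_ ?_
      · obtain ⟨M, hM⟩ := (isCompact_Icc (a := (0 : ℝ)) (b := 2 * β ^ 2 * (t - q))).exists_bound_of_continuousOn
          (f := fun w => UH m w 0)
          (hcU.comp (f := fun w : ℝ => ((w, 0) : ℝ × ℝ)) (by fun_prop)
            (fun w hw => ⟨hw.1, mem_univ _⟩))
        have hgr : ∀ w x, 0 ≤ w → w ≤ 2 * β ^ 2 * (t - q) → |UH m w x| ≤ M + |x| := by
          intro w x hw0 hw1
          have h1 := Convex.norm_image_sub_le_of_norm_hasDerivWithin_le (f := UH m w) (f' := Ux w)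
            (C := 1) (s := univ) (x := 0) (y := x) (fun x _ => (hd w x hw0).1.hasDerivWithinAt)
            (fun x _ => (hb w x hw0).1) convex_univ (mem_univ _) (mem_univ _)
          have h2 := hM w ⟨hw0, hw1⟩
          rw [Real.norm_eq_abs] at h1 h2
          rw [Real.norm_eq_abs, sub_zero, one_mul] at h1
          have h3 : |UH m w x| ≤ |UH m w x - UH m w 0| + |UH m w 0| := by
            have := abs_add_le (UH m w x - UH m w 0) (UH m w 0)
            rwa [sub_add_cancel] at this
          linarith
        unfold he E1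
        refine continuousOn_of_dominated
          (bound := fun y => M + (|x| + √(2 * β ^ 2 * q) * |y|)) ?_ ?_ ?_ ?_
        · intro r _
          have hsl : Continuous (UH m (aa β q t r)) := slice hcU (hA0 r)
          have : Continuous fun y : ℝ => UH m (aa β q t r) (x + √(2 * β ^ 2 * (q - r)) * y) :=
            hsl.comp (continuous_const.add (continuous_const.mul continuous_id))
          exact this.aestronglyMeasurable
        · intro r hr
          refine Eventually.of_forall fun y => ?_
          rw [Real.norm_eq_abs]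
          refine (hgr _ _ (hA0 r) (aa_le β q t r)).trans ?_
          have h1 : √(2 * β ^ 2 * (q - r)) ≤ √(2 * β ^ 2 * q) := by
            apply Real.sqrt_le_sqrt
            exact mul_le_mul_of_nonneg_left (by linarith [hr.1]) (by positivity)
          have h2 : |x + √(2 * β ^ 2 * (q - r)) * y| ≤ |x| + √(2 * β ^ 2 * (q - r)) * |y| := by
            refine (abs_add_le _ _).trans ?_
            rw [abs_mul, abs_of_nonneg (Real.sqrt_nonneg _)]
          have h3 := mul_le_mul_of_nonneg_right h1 (abs_nonneg y)
          linarith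
        · have h1 : Integrable (fun y : ℝ => |y|) (gaussianReal 0 1) := by
            have h2 := (memLp_id_gaussianReal (μ := 0) (v := 1) 1).integrable le_rfl
            exact h2.abs
          exact (integrable_const _).add ((integrable_const _).add (h1.const_mul _))
        · refine Eventually.of_forall fun y => ?_
          refine (hcU.comp_continuous
            (f := fun r : ℝ => ((aa β q t r, x + √(2 * β ^ 2 * (q - r)) * y) : ℝ × ℝ))
            ?_ (fun p => ⟨aa_nonneg β hqt _, mem_univ _⟩)).continuousOn
          exact (aa_cont β q t).prodMk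
            (continuous_const.add ((Real.continuous_sqrt.comp
              (continuous_const.mul (continuous_const.sub continuous_id))).mul continuous_const))
      · exact (continuous_const.mul (continuous_const.sub
          (continuous_id.max continuous_const))).continuousOn
    -- the derivative
    have hder : ∀ r ∈ Ioo s 1 \ ({q, t} : Set ℝ), HasDerivAt (fun r => f2 β q m t r x)
        (-(β ^ 2 * (he (Uxx (aa β q t r)) β q r x +
          two q m t r * he (Ux (aa β q t r)) β q r x ^ 2))) r := by
      rintro r ⟨hr, hrn⟩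
      have hrq : r ≠ q := fun h => hrn (by rw [h]; exact mem_insert _ _)
      have hrt : r ≠ t := fun h => hrn (by rw [h]; exact mem_insert_of_mem _ rfl)
      rcases lt_or_gt_of_ne hrq with h1 | h1
      · -- `r < q`
        have hG : C2b (UH m (2 * β ^ 2 * (t - q))) (Ux (2 * β ^ 2 * (t - q)))
            (Uxx (2 * β ^ 2 * (t - q))) :=
          ⟨fun x => (hd _ x hv0).1, fun x => (hd _ x hv0).2, slice hcxx hv0, 3, fun x =>
            ⟨(hb _ x hv0).1.trans (by norm_num), (hb _ x hv0).2⟩⟩
        have hv : 0 < 2 * β ^ 2 * (q - r) := by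
          have : 0 < q - r := by linarith
          positivity
        have h2 := (hH _ _ _ hG).1 x (2 * β ^ 2 * (q - r)) hv
        have h3 : HasDerivAt (fun r : ℝ => 2 * β ^ 2 * (q - r)) (-(2 * β ^ 2)) r := by
          have := ((hasDerivAt_id r).const_sub q).const_mul (2 * β ^ 2)
          simpa using this
        have h4 := (h2.comp r h3).add_const (β ^ 2 * (1 - t))
        rw [two_lo h1, aa_lo h1.le]
        have e : E1 (fun y => Uxx (2 * β ^ 2 * (t - q)) (x + √(2 * β ^ 2 * (q - r)) * y)) / 2 *
            -(2 * β ^ 2) = -(β ^ 2 * (he (Uxx (2 * β ^ 2 * (t - q))) β q r x +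
              0 * he (Ux (2 * β ^ 2 * (t - q))) β q r x ^ 2)) := by
          unfold he
          ring
        rw [e] at h4
        refine h4.congr_of_eventuallyEq ?_
        filter_upwards [Iio_mem_nhds h1] with r' hr'
        have hr1 : r' < q := hr'
        show f2 β q m t r' x = _
        unfold f2
        rw [if_neg (not_le.2 (hr1.trans hqt)), if_neg (not_le.2 hr1)]
        rfl
      rcases lt_or_gt_of_ne hrt with h5 | h5
      · -- `q < r < t`
        have hv : 0 < 2 * β ^ 2 * (t - r) := by
          have : 0 < t - r := by linarith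
          positivity
        have h2 := hw (2 * β ^ 2 * (t - r)) x hv
        have h3 : HasDerivAt (fun r : ℝ => 2 * β ^ 2 * (t - r)) (-(2 * β ^ 2)) r := by
          have := ((hasDerivAt_id r).const_sub t).const_mul (2 * β ^ 2)
          simpa using this
        have h4 := (h2.comp r h3).add_const (β ^ 2 * (1 - t))
        rw [two_mid h1.le h5, aa_mid h1.le h5.le, he_of_le _ h1.le, he_of_le _ h1.le]
        have e : (Uxx (2 * β ^ 2 * (t - r)) x + m * Ux (2 * β ^ 2 * (t - r)) x ^ 2) / 2 *
            -(2 * β ^ 2) = -(β ^ 2 * (Uxx (2 * β ^ 2 * (t - r)) x +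
              m * Ux (2 * β ^ 2 * (t - r)) x ^ 2)) := by ring
        rw [e] at h4
        refine h4.congr_of_eventuallyEq ?_
        filter_upwards [Ioo_mem_nhds h1 h5] with r' hr'
        show f2 β q m t r' x = _
        unfold f2
        rw [if_neg (not_le.2 hr'.2), if_pos hr'.1.le]
        rfl
      · -- `t < r`
        rw [two_hi hqt h5.le, aa_hi hqt h5.le, he_of_le _ h1.le, he_of_le _ h1.le, (h0 x).2.1,
          (h0 x).2.2, one_mul, sech_tanh, mul_one]
        have h4 : HasDerivAt (fun r : ℝ => Real.log (Real.cosh x) + β ^ 2 * (1 - r))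
            (-(β ^ 2)) r := by
          have := (((hasDerivAt_id r).const_sub 1).const_mul (β ^ 2)).const_add
            (Real.log (Real.cosh x))
          simpa using this
        refine h4.congr_of_eventuallyEq ?_
        filter_upwards [Ioi_mem_nhds h5] with r' hr'
        have hr1 : t < r' := hr'
        show f2 β q m t r' x = _
        unfold f2
        rw [if_pos hr1.le]
    -- integrability
    have hc1 : Continuous fun r => he (Ux (aa β q t r)) β q r x :=
      (jc hcx (fun w x hw => (hb w x hw).1) β hqt).comp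
        (by fun_prop : Continuous fun r : ℝ => ((r, x) : ℝ × ℝ))
    have hc2 : Continuous fun r => he (Uxx (aa β q t r)) β q r x :=
      (jc hcxx (fun w x hw => (hb w x hw).2) β hqt).comp
        (by fun_prop : Continuous fun r : ℝ => ((r, x) : ℝ × ℝ))
    have hII : IntervalIntegrable (fun r => -(β ^ 2 * (he (Uxx (aa β q t r)) β q r x +
          two q m t r * he (Ux (aa β q t r)) β q r x ^ 2))) volume s 1 := by
      have h1 : IntervalIntegrable (two q m t) volume s 1 :=
        (two_mono hqt hm0.le hm1).intervalIntegrable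
      have h2 : IntervalIntegrable (fun r => two q m t r * he (Ux (aa β q t r)) β q r x ^ 2)
          volume s 1 := h1.mul_continuousOn (hc1.pow 2).continuousOn
      exact (((hc2.intervalIntegrable s 1).add h2).const_mul (β ^ 2)).neg
    have hFTC := integral_eq_of_hasDerivAt_off_countable_of_le (fun r => f2 β q m t r x) _ hs.2
      (s := ({q, t} : Set ℝ)) ((countable_singleton t).insert q)
      (hcont.mono (Icc_subset_Icc_left hs.1)) hder hII
    rw [intervalIntegral.integral_neg] at hFTC
    have h1 : f2 β q m t 1 x = Real.log (Real.cosh x) := by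
      unfold f2
      rw [if_pos ht1]
      ring
    simp only [h1] at hFTC
    linarith

end Pool.TH543.AT2
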